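import Mathlib

set_option autoImplicit false

namespace Pool.Agent.Helper57.EC

open Finset Polynomial

variable {V : Type*} [Fintype V] [DecidableEq V] (G : SimpleGraph V) [DecidableRel G.Adj]

/-- The edge covering sets of `G`: sets of edges such that every vertex is an endpoint of at
least one edge of the set. -/
def covers : Finset (Finset (Sym2 V)) :=
  G.edgeFinset.powerset.filter (fun S => ∀ v : V, ∃ e ∈ S, v ∈ e)

/-- The number `e(G, i)` of edge covering sets with exactly `i` edges. -/
def numCovers (i : ℕ) : ℕ := ((covers G).filter (fun S => S.card = i)).card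

/-- The edge cover polynomial `E(G, x) = ∑ e(G, i) x ^ i`. -/
noncomputable def edgeCoverPoly : ℂ[X] :=
  ∑ i ∈ range (G.edgeFinset.card + 1), C (numCovers G i : ℂ) * X ^ i

end Pool.Agent.Helper57.EC
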