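import Pool.Agent.Helper57.EC.Defs

set_option autoImplicit false

namespace Pool.Agent.Helper57.EC

open Finset

variable {V : Type*} [Fintype V] [DecidableEq V] {G : SimpleGraph V} [DecidableRel G.Adj]

/-- All edges at `v` have colour `b`. -/
def Mono (G : SimpleGraph V) (c : Sym2 V → Bool) (v : V) (b : Bool) : Prop :=
  ∀ w, G.Adj v w → c s(v, w) = b

open Classical in
/-- The vertices which see only one colour. -/
noncomputable def badSet (G : SimpleGraph V) (c : Sym2 V → Bool) : Finset V :=
  univ.filter (fun v => ∃ b, Mono G c v b)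

omit [DecidableEq V] [DecidableRel G.Adj] in
lemma mem_badSet {c : Sym2 V → Bool} {v : V} : v ∈ badSet G c ↔ ∃ b, Mono G c v b := by
  simp [badSet]

/-- Colourings with the least number of vertices seeing only one colour. -/
def Opt (G : SimpleGraph V) (c : Sym2 V → Bool) : Prop :=
  ∀ c', (badSet G c).card ≤ (badSet G c').card

omit [DecidableEq V] in
lemma exists_opt (G : SimpleGraph V) : ∃ c, Opt G c := by
  classical
  obtain ⟨c, -, hc⟩ := Finset.exists_min_image (univ : Finset (Sym2 V → Bool))
    (fun c => (badSet G c).card) ⟨fun _ => true, mem_univ _⟩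
  exact ⟨c, fun c' => hc c' (mem_univ _)⟩

omit [DecidableEq V] in
lemma exists_adj_ne {v : V} (hd : 2 ≤ G.degree v) (u : V) : ∃ w, G.Adj v w ∧ w ≠ u := by
  classical
  by_contra hcon
  push Not at hcon
  have : G.neighborFinset v ⊆ {u} := by
    intro w hw
    rw [SimpleGraph.mem_neighborFinset] at hw
    simpa using hcon w hw
  have h2 := card_le_card this
  rw [SimpleGraph.card_neighborFinset_eq_degree, card_singleton] at h2
  omega

lemma step (hd : ∀ v, 2 ≤ G.degree v) {c : Sym2 V → Bool} (hc : Opt G c) {v u : V} {b : Bool}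
    (hv : Mono G c v b) (hvu : G.Adj v u) :
    badSet G (Function.update c s(v, u) (!b)) = insert u ((badSet G c).erase v) ∧
      u ∉ badSet G c ∧ Opt G (Function.update c s(v, u) (!b)) ∧
      Mono G (Function.update c s(v, u) (!b)) u (!b) := by
  set c' := Function.update c s(v, u) (!b) with hc'
  have huv : u ≠ v := hvu.ne'
  have hvbad : v ∈ badSet G c := mem_badSet.2 ⟨b, hv⟩
  have hoth : ∀ x, x ≠ v → x ≠ u → ∀ w, c' s(x, w) = c s(x, w) := by
    intro x hxv hxu w
    rw [hc', Function.update_of_ne]
    intro h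
    rw [Sym2.eq_iff] at h
    rcases h with ⟨h, -⟩ | ⟨h, -⟩
    · exact hxv h
    · exact hxu h
  have hv' : v ∉ badSet G c' := by
    intro h
    obtain ⟨b', hb'⟩ := mem_badSet.1 h
    obtain ⟨w, hw, hwu⟩ := exists_adj_ne (hd v) u
    have h1 : c' s(v, u) = !b := by rw [hc', Function.update_self]
    have h2 : c' s(v, w) = b := by
      rw [hc', Function.update_of_ne, hv w hw]
      intro h
      rw [Sym2.eq_iff] at h
      rcases h with ⟨-, h⟩ | ⟨h, -⟩
      · exact hwu h
      · exact huv h.symm
    rw [hb' u hvu] at h1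
    rw [hb' w hw] at h2
    rw [h2] at h1
    cases b <;> simp at h1
  have hsub : badSet G c' ⊆ insert u ((badSet G c).erase v) := by
    intro x hx
    rw [mem_insert]
    by_cases hxu : x = u
    · exact Or.inl hxu
    · right
      have hxv : x ≠ v := by
        rintro rfl
        exact hv' hx
      rw [mem_erase]
      refine ⟨hxv, ?_⟩
      obtain ⟨b', hb'⟩ := mem_badSet.1 hx
      refine mem_badSet.2 ⟨b', fun w hw => ?_⟩
      rw [← hoth x hxv hxu w]
      exact hb' w hw
  have hle := hc c'
  have hpos : 0 < (badSet G c).card := card_pos.2 ⟨v, hvbad⟩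
  have hcard1 : ((badSet G c).erase v).card = (badSet G c).card - 1 := card_erase_of_mem hvbad
  have hu : u ∉ (badSet G c).erase v := by
    intro h
    rw [insert_eq_of_mem h] at hsub
    have := card_le_card hsub
    omega
  have hu' : u ∉ badSet G c := by
    intro h
    exact hu (mem_erase.2 ⟨huv, h⟩)
  have hcard2 : (insert u ((badSet G c).erase v)).card = (badSet G c).card := by
    rw [card_insert_of_notMem hu]
    omega
  have heq : badSet G c' = insert u ((badSet G c).erase v) :=
    eq_of_subset_of_card_le hsub (by omega)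
  refine ⟨heq, hu', ?_, ?_⟩
  · intro c''
    rw [heq, hcard2]
    exact hc c''
  · have h1 : u ∈ badSet G c' := by
      rw [heq]
      exact mem_insert_self _ _
    obtain ⟨b', hb'⟩ := mem_badSet.1 h1
    have h2 : c' s(u, v) = !b := by
      rw [Sym2.eq_swap, hc', Function.update_self]
    have h3 : b' = !b := by rw [← hb' v hvu.symm, h2]
    rw [← h3]
    exact hb'

/-- Moving the bad vertex along a trail. -/
lemma move (hd : ∀ v, 2 ≤ G.degree v) {v w : V} (p : G.Walk v w) :
    ∀ (c : Sym2 V → Bool) (b : Bool), p.IsTrail → Opt G c → Mono G c v b →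
      ∃ b', Opt G (fun e => if e ∈ p.edges then !(c e) else c e) ∧
        Mono G (fun e => if e ∈ p.edges then !(c e) else c e) w b' := by
  induction p with
  | nil =>
    intro c b _ hc hm
    exact ⟨b, by simpa using hc, by simpa using hm⟩
  | cons h p ih =>
    rename_i v u w
    intro c b ht hc hm
    rw [SimpleGraph.Walk.isTrail_cons] at ht
    obtain ⟨-, -, h3, h4⟩ := step hd hc hm h
    obtain ⟨b', h5, h6⟩ := ih _ _ ht.1 h3 h4
    have hfun : (fun e => if e ∈ (SimpleGraph.Walk.cons h p).edges then !(c e) else c e) =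
        (fun e => if e ∈ p.edges then !(Function.update c s(v, u) (!b) e)
          else Function.update c s(v, u) (!b) e) := by
      funext e
      rw [SimpleGraph.Walk.edges_cons]
      by_cases he : e = s(v, u)
      · subst he
        have hcb := hm u h
        simp [ht.2, hcb]
      · simp [he]
    rw [hfun]
    exact ⟨b', h5, h6⟩

/-- Any vertex reachable from a bad vertex of an optimal colouring is bad for some optimal
colouring. -/
lemma move_reach (hd : ∀ v, 2 ≤ G.degree v) {v w : V} (hr : G.Reachable v w)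
    {c : Sym2 V → Bool} {b : Bool} (hc : Opt G c) (hm : Mono G c v b) :
    ∃ c' b', Opt G c' ∧ Mono G c' w b' := by
  classical
  obtain ⟨p, hp⟩ := hr.exists_isPath
  obtain ⟨b', h1, h2⟩ := move hd p c b hp.isTrail hc hm
  exact ⟨_, b', h1, h2⟩

/-- A bad vertex on a cycle has degree two. -/
lemma degree_of_cycle (hd : ∀ v, 2 ≤ G.degree v) {v : V} {c : Sym2 V → Bool} {b : Bool}
    (hc : Opt G c) (hm : Mono G c v b) (p : G.Walk v v) (hp : p.IsCycle) :
    G.degree v = 2 ∧ ∀ w, G.Adj v w → w ∈ p.support := by
  obtain ⟨b', h1, h2⟩ := move hd p c b hp.isTrail hc hm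
  have h3 : (p.toSubgraph.neighborSet v).ncard = 2 :=
    hp.ncard_neighborSet_toSubgraph_eq_two p.start_mem_support
  have hne : ∃ w, p.toSubgraph.Adj v w := by
    by_contra hcon
    push Not at hcon
    have : p.toSubgraph.neighborSet v = ∅ := by
      ext w
      simpa using hcon w
    rw [this, Set.ncard_empty] at h3
    omega
  obtain ⟨w0, hw0⟩ := hne
  have hw0' : s(v, w0) ∈ p.edges := by
    rwa [SimpleGraph.Walk.adj_toSubgraph_iff_mem_edges] at hw0
  have hb' : b' = !b := by
    have h4 := h2 w0 hw0.adj_sub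
    have h5 := hm w0 hw0.adj_sub
    simp only [hw0', if_true, h5] at h4
    exact h4.symm
  have hall : ∀ w, G.Adj v w → s(v, w) ∈ p.edges := by
    intro w hw
    by_contra hcon
    have h4 := h2 w hw
    have h5 := hm w hw
    simp only [hcon, if_false, h5, hb'] at h4
    cases b <;> simp at h4
  have hset : p.toSubgraph.neighborSet v = G.neighborSet v := by
    ext w
    rw [SimpleGraph.Subgraph.mem_neighborSet, SimpleGraph.mem_neighborSet,
      SimpleGraph.Walk.adj_toSubgraph_iff_mem_edges]
    exact ⟨fun h => p.adj_of_mem_edges h, fun h => hall w h⟩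
  constructor
  · rw [hset] at h3
    rw [← h3, ← SimpleGraph.card_neighborFinset_eq_degree, ← Set.ncard_coe_finset,
      SimpleGraph.coe_neighborFinset]
  · intro w hw
    exact SimpleGraph.Walk.snd_mem_support_of_mem_edges p (hall w hw)

/-- If all degrees are at least two, every component contains a cycle. -/
lemma exists_cycle (hd : ∀ v, 2 ≤ G.degree v) (v₀ : V) :
    ∃ x, G.Reachable v₀ x ∧ ∃ p : G.Walk x x, p.IsCycle := by
  classical
  -- a longest path ending at `v₀`
  have hex : ∃ n, ∃ (w : V) (p : G.Walk w v₀), p.IsPath ∧ p.length = n :=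
    ⟨0, v₀, SimpleGraph.Walk.nil, SimpleGraph.Walk.IsPath.nil, rfl⟩
  have hbd : ∀ n, (∃ (w : V) (p : G.Walk w v₀), p.IsPath ∧ p.length = n) →
      n ≤ Fintype.card V := by
    rintro n ⟨w, p, hp, rfl⟩
    exact hp.length_lt.le
  obtain ⟨w, p, hp, hlen⟩ := Nat.findGreatest_spec (P := fun n => ∃ (w : V) (p : G.Walk w v₀),
    p.IsPath ∧ p.length = n) (Nat.zero_le (Fintype.card V)) ⟨v₀, SimpleGraph.Walk.nil, SimpleGraph.Walk.IsPath.nil, rfl⟩
  have hmax : ∀ (w' : V) (p' : G.Walk w' v₀), p'.IsPath → p'.length ≤ p.length := by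
    intro w' p' hp'
    rw [hlen]
    exact Nat.le_findGreatest (hbd _ ⟨w', p', hp', rfl⟩) ⟨w', p', hp', rfl⟩
  obtain ⟨x, hx, hxne⟩ := exists_adj_ne (hd w) p.snd
  have hxs : x ∈ p.support := by
    by_contra hcon
    have := hmax x (SimpleGraph.Walk.cons hx.symm p) (by
      rw [SimpleGraph.Walk.cons_isPath_iff]
      exact ⟨hp, hcon⟩)
    rw [SimpleGraph.Walk.length_cons] at this
    omega
  refine ⟨x, ?_, SimpleGraph.Walk.cons hx.symm (p.takeUntil x hxs), ?_⟩
  · exact (p.reverse.reachable.trans hx.reachable)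
  · rw [SimpleGraph.Walk.cons_isCycle_iff]
    refine ⟨hp.takeUntil hxs, fun hmem => hxne ?_⟩
    have h1 : s(w, x) ∈ p.edges := by
      apply SimpleGraph.Walk.edges_takeUntil_subset_edges p hxs
      rwa [Sym2.eq_swap]
    exact hp.eq_snd_of_mem_edges h1

/-- The two-colouring lemma: either the edges can be coloured with two colours such that every
vertex sees both colours, or some component is two-regular. -/
theorem good_or_regular (hd : ∀ v, 2 ≤ G.degree v) :
    (∃ c : Sym2 V → Bool, badSet G c = ∅) ∨ ∃ v, ∀ w, G.Reachable v w → G.degree w = 2 := by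
  classical
  obtain ⟨c, hc⟩ := exists_opt G
  by_cases hbad : badSet G c = ∅
  · exact Or.inl ⟨c, hbad⟩
  · right
    obtain ⟨v, hv⟩ := nonempty_iff_ne_empty.2 hbad
    obtain ⟨b, hm⟩ := mem_badSet.1 hv
    obtain ⟨x, hx, p, hp⟩ := exists_cycle hd v
    -- every vertex on the cycle has degree two and its neighbours are on the cycle
    have key : ∀ y ∈ p.support, G.degree y = 2 ∧ ∀ w, G.Adj y w → w ∈ p.support := by
      intro y hy
      have hry : G.Reachable v y := hx.trans (p.takeUntil y hy).reachable
      obtain ⟨c', b', hc', hm'⟩ := move_reach hd hry hc hm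
      have h1 := degree_of_cycle hd hc' hm' (p.rotate y hy) (hp.rotate hy)
      refine ⟨h1.1, fun w hw => ?_⟩
      have := h1.2 w hw
      rwa [SimpleGraph.Walk.mem_support_rotate_iff] at this
    have key2 : ∀ y, G.Reachable x y → y ∈ p.support := by
      intro y hy
      obtain ⟨q⟩ := hy
      have : ∀ (a b : V) (q : G.Walk a b), a ∈ p.support → b ∈ p.support := by
        intro a b q
        induction q with
        | nil => exact id
        | cons h q ih => exact fun ha => ih ((key _ ha).2 _ h)
      exact this _ _ q p.start_mem_support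
    exact ⟨x, fun w hw => (key w (key2 w hw)).1⟩

omit [DecidableEq V] in
lemma exists_colour {G' : SimpleGraph V} {c : Sym2 V → Bool} {v : V} (h : v ∉ badSet G' c)
    (b : Bool) : ∃ w, G'.Adj v w ∧ c s(v, w) = b := by
  by_contra hcon
  push Not at hcon
  apply h
  refine mem_badSet.2 ⟨!b, fun w hw => ?_⟩
  have := hcon w hw
  cases hc : c s(v, w) <;> cases b <;> simp_all

/-- A good colouring of a spanning subgraph gives two disjoint edge covers. -/
lemma bound_of_good {G' : SimpleGraph V} {c : Sym2 V → Bool} (h : badSet G' c = ∅)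
    {F : Finset (Sym2 V)} (hF : ∀ v w, G'.Adj v w → s(v, w) ∈ F) (hFG : F ⊆ G.edgeFinset)
    {r : ℕ} (hr : ∀ S ∈ covers G, r ≤ S.card) : 2 * r ≤ F.card := by
  have hcov : ∀ b : Bool, F.filter (fun e => c e = b) ∈ covers G := by
    intro b
    rw [covers, mem_filter, mem_powerset]
    refine ⟨(filter_subset _ _).trans hFG, fun v => ?_⟩
    obtain ⟨w, hw, hcw⟩ := exists_colour (G' := G') (c := c) (v := v) (by rw [h]; simp) b
    exact ⟨s(v, w), mem_filter.2 ⟨hF v w hw, hcw⟩, Sym2.mem_mk_left _ _⟩
  have h1 := hr _ (hcov true)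
  have h2 := hr _ (hcov false)
  have h3 : (F.filter (fun e => c e = true)).card + (F.filter (fun e => c e = false)).card =
      F.card := by
    rw [← card_filter_add_card_filter_not (s := F) (fun e => c e = true)]
    congr 2
    ext e
    simp
  omega

/-- In an optimal colouring, a component has at most one bad vertex. -/
lemma unique_bad (hd : ∀ v, 2 ≤ G.degree v) {v w : V} (p : G.Walk v w) :
    ∀ (c : Sym2 V → Bool) (B : Finset V), Opt G c → badSet G c = insert v B → v ∉ B → w ∉ B := by
  induction p with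
  | nil =>
    intro c B _ _ h
    exact h
  | cons h p ih =>
    rename_i v u w
    intro c B hc hb hv
    obtain ⟨b, hm⟩ := mem_badSet.1 (by rw [hb]; exact mem_insert_self _ _ : v ∈ badSet G c)
    obtain ⟨h1, h2, h3, h4⟩ := step hd hc hm h
    rw [hb, erase_insert hv] at h1
    refine ih _ B h3 h1 (fun hu => h2 ?_)
    rw [hb]
    exact mem_insert_of_mem hu

/-- A connected graph with all degrees at least two and `m` edges has an edge cover with at most
`(m + 1) / 2` edges. -/
lemma bound_connected (hd : ∀ v, 2 ≤ G.degree v) (hconn : G.Connected) {r : ℕ}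
    (hr : ∀ S ∈ covers G, r ≤ S.card) : 2 * r ≤ G.edgeFinset.card + 1 := by
  obtain ⟨c, hc⟩ := exists_opt G
  by_cases hbad : badSet G c = ∅
  · have := bound_of_good (G := G) (G' := G) hbad (F := G.edgeFinset)
      (fun v w h => by rwa [SimpleGraph.mem_edgeFinset, SimpleGraph.mem_edgeSet]) (Subset.refl _) hr
    omega
  · obtain ⟨v, hv⟩ := nonempty_iff_ne_empty.2 hbad
    obtain ⟨b, hm⟩ := mem_badSet.1 hv
    have huniq : ∀ w, w ≠ v → w ∉ badSet G c := by
      intro w hw hwb
      obtain ⟨p⟩ := hconn.preconnected v w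
      refine unique_bad hd p c ((badSet G c).erase v) hc (insert_erase hv).symm
        (notMem_erase _ _) ?_
      exact mem_erase.2 ⟨hw, hwb⟩
    obtain ⟨u, hu, -⟩ := exists_adj_ne (hd v) v
    have h1 : G.edgeFinset.filter (fun e => c e = b) ∈ covers G := by
      rw [covers, mem_filter, mem_powerset]
      refine ⟨filter_subset _ _, fun x => ?_⟩
      by_cases hx : x = v
      · subst hx
        exact ⟨s(x, u), mem_filter.2 ⟨by rwa [SimpleGraph.mem_edgeFinset, SimpleGraph.mem_edgeSet],
          hm u hu⟩, Sym2.mem_mk_left _ _⟩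
      · obtain ⟨w, hw, hcw⟩ := exists_colour (huniq x hx) b
        exact ⟨s(x, w), mem_filter.2 ⟨by rwa [SimpleGraph.mem_edgeFinset, SimpleGraph.mem_edgeSet],
          hcw⟩, Sym2.mem_mk_left _ _⟩
    have h2 : insert s(v, u) (G.edgeFinset.filter (fun e => c e = !b)) ∈ covers G := by
      rw [covers, mem_filter, mem_powerset]
      refine ⟨?_, fun x => ?_⟩
      · rw [insert_subset_iff]
        exact ⟨by rwa [SimpleGraph.mem_edgeFinset, SimpleGraph.mem_edgeSet], filter_subset _ _⟩
      · by_cases hx : x = v
        · subst hx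
          exact ⟨s(x, u), mem_insert_self _ _, Sym2.mem_mk_left _ _⟩
        · obtain ⟨w, hw, hcw⟩ := exists_colour (huniq x hx) (!b)
          exact ⟨s(x, w), mem_insert_of_mem (mem_filter.2
            ⟨by rwa [SimpleGraph.mem_edgeFinset, SimpleGraph.mem_edgeSet], hcw⟩),
            Sym2.mem_mk_left _ _⟩
    have h3 := hr _ h1
    have h4 := (hr _ h2).trans (card_insert_le _ _)
    have h5 : (G.edgeFinset.filter (fun e => c e = b)).card +
        (G.edgeFinset.filter (fun e => c e = !b)).card = G.edgeFinset.card := by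
      rw [← card_filter_add_card_filter_not (s := G.edgeFinset) (fun e => c e = b)]
      congr 2
      ext e
      cases c e <;> cases b <;> simp
    omega

end Pool.Agent.Helper57.EC
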