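import Pool.Agent.Helper57.EC.House

set_option autoImplicit false

namespace Pool.Agent.Helper57.EC

open Finset

variable {V : Type*} [Fintype V] [DecidableEq V] {G : SimpleGraph V} [DecidableRel G.Adj]

lemma pend_strong {N : ℕ} (H : Hyp G N) {a y : V} (hp : Pend G a y) :
    ∀ x, (G.deleteEdges {s(a, y)}).Reachable a x → x ≠ y ∧ (x ≠ a → G.degree x = 2) := by
  obtain ⟨h1, h2, h3, h4, h5⟩ := hp
  have hy : ¬ (G.deleteEdges {s(a, y)}).Reachable a y := by
    intro hr
    have key : ∀ x z (p : G.Walk x z), (G.deleteEdges {s(a, y)}).Reachable a x →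
        (G.deleteEdges {s(a, y)}).Reachable a z := by
      intro x z p
      induction p with
      | nil => exact id
      | cons h p ih =>
        rename_i x w z
        intro hx
        apply ih
        by_cases he : s(x, w) = s(a, y)
        · rw [Sym2.eq_iff] at he
          rcases he with ⟨-, rfl⟩ | ⟨-, rfl⟩
          · exact hr
          · exact SimpleGraph.Reachable.refl _
        · refine hx.trans (SimpleGraph.Adj.reachable ?_)
          rw [SimpleGraph.deleteEdges_adj]
          exact ⟨h, by simpa using he⟩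
    refine house_false H h1 h3 (h5 hr) (fun x hxa hxy => h4 x ?_ hxa hxy)
    obtain ⟨p⟩ := H.hconn.preconnected a x
    exact key a x p (SimpleGraph.Reachable.refl _)
  intro x hx
  refine ⟨fun h => hy (h ▸ hx), fun hxa => ?_⟩
  by_cases hxy : x = y
  · exact absurd (hxy ▸ hx) hy
  · exact h4 x hx hxa hxy

omit [Fintype V] [DecidableEq V] [DecidableRel G.Adj] in
lemma reach_step {a y x z : V} (hx : (G.deleteEdges {s(a, y)}).Reachable a x) (h : G.Adj x z)
    (hne : s(x, z) ≠ s(a, y)) : (G.deleteEdges {s(a, y)}).Reachable a z := by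
  refine hx.trans (SimpleGraph.Adj.reachable ?_)
  rw [SimpleGraph.deleteEdges_adj]
  exact ⟨h, by simpa using hne⟩

lemma pend_nbr {N : ℕ} (H : Hyp G N) {a y : V} (hp : Pend G a y) {w : V} (hw : G.Adj a w)
    (hwy : w ≠ y) : G.degree w = 2 := by
  have hr := reach_step (SimpleGraph.Reachable.refl a) hw (y := y) (by
    intro he
    rw [Sym2.eq_iff] at he
    rcases he with ⟨-, h⟩ | ⟨h, h'⟩
    · exact hwy h
    · exact hp.1.ne h)
  exact (pend_strong H hp w hr).2 hw.ne'

lemma pend_nbr2 {N : ℕ} (H : Hyp G N) {a y : V} (hp : Pend G a y) {x z : V} (hx : G.Adj a x)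
    (hxy : x ≠ y) (hz : G.Adj x z) (hza : z ≠ a) : G.degree z = 2 := by
  have hr := reach_step (SimpleGraph.Reachable.refl a) hx (y := y) (by
    intro he
    rw [Sym2.eq_iff] at he
    rcases he with ⟨-, h⟩ | ⟨h, h'⟩
    · exact hxy h
    · exact hp.1.ne h)
  have hr2 := reach_step hr hz (by
    intro he
    rw [Sym2.eq_iff] at he
    rcases he with ⟨h, -⟩ | ⟨h, -⟩
    · exact hx.ne' h
    · exact hxy h)
  exact (pend_strong H hp z hr2).2 hza

lemma pend_nbr3 {N : ℕ} (H : Hyp G N) {a y : V} (hp : Pend G a y) {x z a' : V} (hx : G.Adj a x)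
    (hxy : x ≠ y) (hz : G.Adj x z) (hza : z ≠ a) (ha' : G.Adj z a') (hd : 3 ≤ G.degree a') :
    a' = a := by
  have hr := reach_step (SimpleGraph.Reachable.refl a) hx (y := y) (by
    intro he
    rw [Sym2.eq_iff] at he
    rcases he with ⟨-, h⟩ | ⟨h, h'⟩
    · exact hxy h
    · exact hp.1.ne h)
  have hr2 := reach_step hr hz (by
    intro he
    rw [Sym2.eq_iff] at he
    rcases he with ⟨h, -⟩ | ⟨h, -⟩
    · exact hx.ne' h
    · exact hxy h)
  have hzy := (pend_strong H hp z hr2).1
  have hr3 := reach_step hr2 ha' (by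
    intro he
    rw [Sym2.eq_iff] at he
    rcases he with ⟨h, -⟩ | ⟨h, -⟩
    · exact hza h
    · exact hzy h)
  by_contra hne
  have := (pend_strong H hp a' hr3).2 hne
  omega

open Classical in
/-- The vertices of degree three on pendant cycles. -/
noncomputable def A3 (G : SimpleGraph V) [DecidableRel G.Adj] : Finset V :=
  univ.filter (fun a => ∃ y, Pend G a y)

omit [DecidableEq V] in
lemma mem_A3 {a : V} : a ∈ A3 G ↔ ∃ y, Pend G a y := by simp [A3]

omit [DecidableEq V] in
lemma A3_sub : A3 G ⊆ Vb G := by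
  intro a ha
  obtain ⟨y, hy⟩ := mem_A3.1 ha
  rw [mem_Vb, hy.2.2.1]

lemma A3_Vb {N : ℕ} (H : Hyp G N) {a y : V} (hp : Pend G a y) :
    G.neighborFinset a ∩ Vb G = {y} := by
  ext w
  rw [mem_inter, SimpleGraph.mem_neighborFinset, mem_Vb, mem_singleton]
  constructor
  · rintro ⟨h1, h2⟩
    by_contra hne
    have := pend_nbr H hp h1 hne
    omega
  · rintro rfl
    exact ⟨hp.1, hp.2.1⟩

lemma A3_V2 {N : ℕ} (H : Hyp G N) {a y : V} (hp : Pend G a y) :
    (G.neighborFinset a ∩ V2 G).card = 2 := by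
  have h1 : (G.neighborFinset a ∩ V2 G).card + (G.neighborFinset a ∩ Vb G).card = 3 := by
    rw [← card_union_of_disjoint (Disjoint.mono inter_subset_right inter_subset_right disj),
      ← inter_union_distrib_left, V2_union_Vb H.hd, inter_univ,
      SimpleGraph.card_neighborFinset_eq_degree, hp.2.2.1]
  rw [A3_Vb H hp, card_singleton] at h1
  omega

/-- The vertices of degree two adjacent to a vertex of `A3`. -/
noncomputable def X3 (G : SimpleGraph V) [DecidableRel G.Adj] : Finset V :=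
  (V2 G).filter (fun x => (G.neighborFinset x ∩ A3 G).Nonempty)

lemma mem_X3 {x : V} : x ∈ X3 G ↔ G.degree x = 2 ∧ ∃ a ∈ A3 G, G.Adj x a := by
  rw [X3, mem_filter, mem_V2]
  refine and_congr_right (fun _ => ?_)
  constructor
  · rintro ⟨a, ha⟩
    rw [mem_inter, SimpleGraph.mem_neighborFinset] at ha
    exact ⟨a, ha.2, ha.1⟩
  · rintro ⟨a, ha, h⟩
    exact ⟨a, mem_inter.2 ⟨by rwa [SimpleGraph.mem_neighborFinset], ha⟩⟩

omit [DecidableEq V] in
lemma pend_ne {a y x : V} (hp : Pend G a y) (hx : G.degree x = 2) : x ≠ y := by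
  rintro rfl
  have := hp.2.1
  omega

lemma X3_V2 {N : ℕ} (H : Hyp G N) {x : V} (hx : x ∈ X3 G) :
    (G.neighborFinset x ∩ V2 G).card = 1 ∧ (G.neighborFinset x ∩ A3 G).card = 1 := by
  obtain ⟨h2, a, ha, hxa⟩ := mem_X3.1 hx
  obtain ⟨y, hp⟩ := mem_A3.1 ha
  obtain ⟨z, hz, hza⟩ := exists_adj_ne (H.hd x) a
  have hz2 := pend_nbr2 H hp hxa.symm (pend_ne hp h2) hz hza
  have hN : G.neighborFinset x = {a, z} := by
    symm
    apply eq_of_subset_of_card_le
    · intro w hw
      rw [mem_insert, mem_singleton] at hw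
      rw [SimpleGraph.mem_neighborFinset]
      rcases hw with rfl | rfl <;> assumption
    · rw [card_pair hza.symm, SimpleGraph.card_neighborFinset_eq_degree, h2]
  have haV : a ∉ V2 G := by
    rw [mem_V2, hp.2.2.1]
    omega
  have hzA : z ∉ A3 G := by
    intro h
    have := mem_Vb.1 (A3_sub h)
    omega
  have e1 : G.neighborFinset x ∩ V2 G = {z} := by
    rw [hN]
    ext w
    simp only [mem_inter, mem_insert, mem_singleton]
    constructor
    · rintro ⟨rfl | rfl, h⟩
      · exact absurd h haV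
      · rfl
    · rintro rfl
      exact ⟨Or.inr rfl, mem_V2.2 hz2⟩
  have e2 : G.neighborFinset x ∩ A3 G = {a} := by
    rw [hN]
    ext w
    simp only [mem_inter, mem_insert, mem_singleton]
    constructor
    · rintro ⟨rfl | rfl, h⟩
      · rfl
      · exact absurd h hzA
    · rintro rfl
      exact ⟨Or.inl rfl, ha⟩
  rw [e1, e2, card_singleton, card_singleton]
  exact ⟨rfl, rfl⟩

/-- The counting argument. -/
lemma counting {N : ℕ} (H : Hyp G N) :
    (∀ x ∈ V2 G \ X3 G, G.neighborFinset x ∩ V2 G = ∅) ∧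
    (∀ a ∈ A3 G, G.neighborFinset a ∩ A3 G = ∅) ∧ (X3 G).card = 2 * (A3 G).card := by
  have hX3 : X3 G ⊆ V2 G := filter_subset _ _
  have h1 : eN G (A3 G) (Vb G) = (A3 G).card := by
    unfold eN
    rw [card_eq_sum_ones]
    refine sum_congr rfl (fun a ha => ?_)
    obtain ⟨y, hp⟩ := mem_A3.1 ha
    rw [A3_Vb H hp, card_singleton]
  have h2 : eN G (A3 G) (V2 G) = 2 * (A3 G).card := by
    unfold eN
    rw [card_eq_sum_ones, mul_sum]
    refine sum_congr rfl (fun a ha => ?_)
    obtain ⟨y, hp⟩ := mem_A3.1 ha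
    rw [A3_V2 H hp]
    rfl
  have h3 : eN G (V2 G) (A3 G) = (X3 G).card := by
    unfold eN
    rw [← sum_sdiff hX3, card_eq_sum_ones]
    have : ∑ x ∈ V2 G \ X3 G, (G.neighborFinset x ∩ A3 G).card = 0 := by
      refine sum_eq_zero (fun x hx => ?_)
      rw [mem_sdiff] at hx
      rw [card_eq_zero]
      by_contra hne
      apply hx.2
      rw [X3, mem_filter]
      exact ⟨hx.1, nonempty_iff_ne_empty.2 hne⟩
    rw [this, zero_add]
    exact sum_congr rfl (fun x hx => (X3_V2 H hx).2)
  have h4 : eN G (V2 G) (V2 G) = (∑ x ∈ V2 G \ X3 G, (G.neighborFinset x ∩ V2 G).card) +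
      (X3 G).card := by
    unfold eN
    rw [← sum_sdiff hX3]
    congr 1
    rw [card_eq_sum_ones]
    exact sum_congr rfl (fun x hx => (X3_V2 H hx).1)
  have hU : Vb G = A3 G ∪ (Vb G \ A3 G) := (union_sdiff_of_subset A3_sub).symm
  have hdis : Disjoint (A3 G) (Vb G \ A3 G) := disjoint_sdiff
  have h5 : eN G (Vb G) (Vb G) = eN G (A3 G) (Vb G) + eN G (Vb G \ A3 G) (Vb G) := by
    conv_lhs => rw [hU]
    rw [eN_union' _ _ _ hdis, ← hU]
  have h6 : eN G (Vb G \ A3 G) (Vb G) = eN G (Vb G \ A3 G) (A3 G) +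
      eN G (Vb G \ A3 G) (Vb G \ A3 G) := by
    conv_lhs => rw [hU]
    rw [← hU, hU, eN_union _ _ _ (hU ▸ hdis), ← hU]
  have h7 : eN G (Vb G \ A3 G) (Vb G \ A3 G) = 0 := by
    unfold eN
    refine sum_eq_zero (fun x hx => ?_)
    rw [card_eq_zero]
    rw [mem_sdiff] at hx
    ext w
    simp only [mem_inter, SimpleGraph.mem_neighborFinset, mem_sdiff, notMem_empty, iff_false]
    rintro ⟨hw, hw1, hw2⟩
    rcases pend_or H hw (mem_Vb.1 hx.1) (mem_Vb.1 hw1) with h | h
    · exact hx.2 (mem_A3.2 ⟨_, h⟩)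
    · exact hw2 (mem_A3.2 ⟨_, h⟩)
  have h8 : eN G (A3 G) (Vb G) = eN G (A3 G) (A3 G) + eN G (A3 G) (Vb G \ A3 G) := by
    rw [← eN_union _ _ _ hdis, ← hU]
  have h9 := eN_comm (G := G) (A3 G) (Vb G \ A3 G)
  have h10 := eN_comm (G := G) (V2 G) (A3 G)
  have h11 := count_eq H
  have h12 : (∑ x ∈ V2 G \ X3 G, (G.neighborFinset x ∩ V2 G).card) = 0 := by omega
  have h13 : eN G (A3 G) (A3 G) = 0 := by omega
  refine ⟨fun x hx => ?_, fun a ha => ?_, by omega⟩
  · rw [sum_eq_zero_iff] at h12
    exact card_eq_zero.1 (h12 x hx)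
  · unfold eN at h13
    rw [sum_eq_zero_iff] at h13
    exact card_eq_zero.1 (h13 a ha)

/-- Every vertex of `A3` lies on a pendant triangle. -/
lemma triangle {N : ℕ} (H : Hyp G N) {a : V} (ha : a ∈ A3 G) : ∃ y b c : V,
    G.neighborFinset a ∩ V2 G = {b, c} ∧ (∀ w, G.Adj a w → w = y ∨ w = b ∨ w = c) ∧
    (∀ w, G.Adj b w → w = a ∨ w = c) ∧ (∀ w, G.Adj c w → w = a ∨ w = b) := by
  obtain ⟨hC1, hC2, hC3⟩ := counting H
  obtain ⟨y, hp⟩ := mem_A3.1 ha
  have hcard := A3_V2 H hp
  obtain ⟨b, c, hbc, hset⟩ := card_eq_two.1 hcard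
  have hb : b ∈ G.neighborFinset a ∩ V2 G := by rw [hset]; simp
  have hc : c ∈ G.neighborFinset a ∩ V2 G := by rw [hset]; simp
  have key : ∀ b c : V, G.neighborFinset a ∩ V2 G = {b, c} → b ∈ G.neighborFinset a ∩ V2 G →
      (∀ w, G.Adj b w → w = a ∨ w = c) := by
    intro b c hset hb w hw
    by_cases hwa : w = a
    · exact Or.inl hwa
    right
    rw [mem_inter, SimpleGraph.mem_neighborFinset, mem_V2] at hb
    have hw2 : G.degree w = 2 := pend_nbr2 H hp hb.1 (pend_ne hp hb.2) hw hwa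
    have hwX : w ∈ X3 G := by
      by_contra hcon
      have h1 := hC1 w (mem_sdiff.2 ⟨mem_V2.2 hw2, hcon⟩)
      have h2 : b ∈ G.neighborFinset w ∩ V2 G :=
        mem_inter.2 ⟨by rw [SimpleGraph.mem_neighborFinset]; exact hw.symm, mem_V2.2 hb.2⟩
      rw [h1] at h2
      exact notMem_empty _ h2
    obtain ⟨-, a', ha', hwa'⟩ := mem_X3.1 hwX
    have h3 : a' = a := pend_nbr3 H hp hb.1 (pend_ne hp hb.2) hw hwa hwa' (mem_Vb.1 (A3_sub ha'))
    subst h3
    have h4 : w ∈ G.neighborFinset a' ∩ V2 G :=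
      mem_inter.2 ⟨by rw [SimpleGraph.mem_neighborFinset]; exact hwa'.symm, mem_V2.2 hw2⟩
    rw [hset, mem_insert, mem_singleton] at h4
    rcases h4 with h4 | h4
    · exact absurd h4 hw.ne'
    · exact h4
  refine ⟨y, b, c, hset, ?_, key b c hset hb, key c b (by rw [hset, pair_comm]) hc⟩
  intro w hw
  by_cases hwy : w = y
  · exact Or.inl hwy
  right
  have h1 : w ∈ G.neighborFinset a ∩ V2 G :=
    mem_inter.2 ⟨by rwa [SimpleGraph.mem_neighborFinset], mem_V2.2 (pend_nbr H hp hw hwy)⟩
  rw [hset, mem_insert, mem_singleton] at h1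
  exact h1

/-! ### The final count -/

open Classical in
/-- The set of vertices controlled by the block with index `i`. -/
noncomputable def K (G : SimpleGraph V) [DecidableRel G.Adj] (i : V) : Finset V :=
  if i ∈ A3 G then insert i (G.neighborFinset i ∩ V2 G) else
    if i ∈ V2 G \ X3 G then {i} else ∅

/-- The edges of the block. -/
noncomputable def B (G : SimpleGraph V) [DecidableRel G.Adj] (i : V) : Finset (Sym2 V) :=
  (K G i).biUnion (fun x => G.incidenceFinset x)

/-- The subsets of the block covering the vertices controlled by it. -/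
noncomputable def F (G : SimpleGraph V) [DecidableRel G.Adj] (i : V) : Finset (Finset (Sym2 V)) :=
  (B G i).powerset.filter (fun T => ∀ x ∈ K G i, ∃ e ∈ T, x ∈ e)

/-- The counting target for a pendant triangle. -/
def triSet : Finset (Bool × Bool × Bool × Bool) :=
  univ.filter (fun x => (x.1 || x.2.1 || x.2.2.1) && (x.2.1 || x.2.2.2) && (x.2.2.1 || x.2.2.2))

lemma card_triSet : triSet.card = 9 := by decide

lemma card_F_A3 {N : ℕ} (H : Hyp G N) {a : V} (ha : a ∈ A3 G) : (F G a).card ≤ 9 := by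
  obtain ⟨y, b, c, hset, hNa, hNb, hNc⟩ := triangle H ha
  have hK : K G a = {a, b, c} := by
    rw [K, if_pos ha, hset]
  have hB : ∀ e ∈ B G a, e = s(a, y) ∨ e = s(a, b) ∨ e = s(a, c) ∨ e = s(b, c) := by
    intro e he
    rw [B, mem_biUnion] at he
    obtain ⟨x, hx, hxe⟩ := he
    rw [SimpleGraph.mem_incidenceFinset] at hxe
    obtain ⟨w, hw, rfl⟩ := mem_edge_of_vertex hxe.1 hxe.2
    rw [hK] at hx
    simp only [mem_insert, mem_singleton] at hx
    rcases hx with rfl | rfl | rfl
    · rcases hNa w hw with rfl | rfl | rfl <;> simp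
    · rcases hNb w hw with rfl | rfl <;> simp
    · rcases hNc w hw with rfl | rfl <;> simp
  rw [← card_triSet]
  apply card_le_card_of_injOn (fun S => (decide (s(a, y) ∈ S), decide (s(a, b) ∈ S),
    decide (s(a, c) ∈ S), decide (s(b, c) ∈ S)))
  · intro S hS
    rw [mem_coe, F, mem_filter, mem_powerset] at hS
    obtain ⟨hSB, hcov⟩ := hS
    have hSG : ∀ e ∈ S, e ∈ G.edgeSet := by
      intro e he
      have := hSB he
      rw [B, mem_biUnion] at this
      obtain ⟨x, hx, hxe⟩ := this
      rw [SimpleGraph.mem_incidenceFinset] at hxe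
      exact hxe.1
    have h1 : s(a, y) ∈ S ∨ s(a, b) ∈ S ∨ s(a, c) ∈ S := by
      obtain ⟨e, he, hae⟩ := hcov a (by rw [hK]; simp)
      obtain ⟨w, hw, rfl⟩ := mem_edge_of_vertex (hSG e he) hae
      rcases hNa w hw with rfl | rfl | rfl <;> simp [he]
    have h2 : s(a, b) ∈ S ∨ s(b, c) ∈ S := by
      obtain ⟨e, he, hae⟩ := hcov b (by rw [hK]; simp)
      obtain ⟨w, hw, rfl⟩ := mem_edge_of_vertex (hSG e he) hae
      rcases hNb w hw with rfl | rfl
      · left; rwa [Sym2.eq_swap]
      · right; exact he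
    have h3 : s(a, c) ∈ S ∨ s(b, c) ∈ S := by
      obtain ⟨e, he, hae⟩ := hcov c (by rw [hK]; simp)
      obtain ⟨w, hw, rfl⟩ := mem_edge_of_vertex (hSG e he) hae
      rcases hNc w hw with rfl | rfl
      · left; rwa [Sym2.eq_swap]
      · right; rwa [Sym2.eq_swap]
    rw [mem_coe, triSet, mem_filter]
    refine ⟨mem_univ _, ?_⟩
    simp only [Bool.or_eq_true, Bool.and_eq_true, decide_eq_true_eq]
    tauto
  · intro S hS S' hS' heq
    rw [mem_coe, F, mem_filter, mem_powerset] at hS hS'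
    simp only [Prod.mk.injEq, decide_eq_decide] at heq
    obtain ⟨e1, e2, e3, e4⟩ := heq
    ext e
    by_cases he : e ∈ B G a
    · rcases hB e he with rfl | rfl | rfl | rfl <;> assumption
    · exact ⟨fun h => absurd (hS.1 h) he, fun h => absurd (hS'.1 h) he⟩

lemma card_F_W {x : V} (hx : x ∈ V2 G \ X3 G) : (F G x).card ≤ 3 := by
  have hx2 : G.degree x = 2 := mem_V2.1 (mem_sdiff.1 hx).1
  have hxA : x ∉ A3 G := by
    intro h
    have := mem_Vb.1 (A3_sub h)
    omega
  have hK : K G x = {x} := by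
    rw [K, if_neg hxA, if_pos hx]
  have hB : B G x = G.incidenceFinset x := by
    rw [B, hK, singleton_biUnion]
  have hsub : F G x ⊆ (B G x).powerset.erase ∅ := by
    intro T hT
    rw [F, mem_filter] at hT
    rw [mem_erase]
    refine ⟨?_, hT.1⟩
    rintro rfl
    obtain ⟨e, he, -⟩ := hT.2 x (by rw [hK]; simp)
    exact notMem_empty _ he
  refine (card_le_card hsub).trans ?_
  rw [card_erase_of_mem (empty_mem_powerset _), card_powerset, hB,
    SimpleGraph.card_incidenceFinset_eq_degree, hx2]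
  norm_num

lemma card_F_other {x : V} (hx : x ∉ V2 G \ X3 G) (hxA : x ∉ A3 G) : (F G x).card = 1 := by
  have hK : K G x = ∅ := by
    rw [K, if_neg hxA, if_neg hx]
  have : F G x = {∅} := by
    ext T
    rw [F, B, hK, mem_filter, biUnion_empty, powerset_empty, mem_singleton]
    simp
  rw [this, card_singleton]

lemma prod_card_F {N : ℕ} (H : Hyp G N) : ∏ i : V, (F G i).card ≤ 3 ^ N := by
  classical
  have hdis : Disjoint (A3 G) (V2 G \ X3 G) := by
    rw [disjoint_left]
    intro x h1 h2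
    have h3 := mem_Vb.1 (A3_sub h1)
    have h4 := mem_V2.1 (mem_sdiff.1 h2).1
    omega
  have h1 : ∏ i : V, (F G i).card = ∏ i ∈ A3 G ∪ (V2 G \ X3 G), (F G i).card := by
    symm
    apply prod_subset (subset_univ _)
    intro x _ hx
    rw [mem_union, not_or] at hx
    exact card_F_other hx.2 hx.1
  rw [h1, prod_union hdis]
  have h2 : ∏ i ∈ A3 G, (F G i).card ≤ 9 ^ (A3 G).card :=
    prod_le_pow_card _ _ _ (fun i hi => card_F_A3 H hi)
  have h3 : ∏ i ∈ V2 G \ X3 G, (F G i).card ≤ 3 ^ (V2 G \ X3 G).card :=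
    prod_le_pow_card _ _ _ (fun i hi => card_F_W hi)
  refine (Nat.mul_le_mul h2 h3).trans ?_
  have h4 : (V2 G \ X3 G).card + (X3 G).card = N := by
    rw [card_sdiff_add_card_eq_card (show X3 G ⊆ V2 G from filter_subset _ _)]
    exact H.h2
  have h5 := (counting H).2.2
  rw [show (9 : ℕ) = 3 ^ 2 from rfl, ← pow_mul, ← pow_add]
  exact Nat.pow_le_pow_right (by norm_num) (by omega)

/-- Every vertex of `A3 ∪ V2` is controlled by a block. -/
lemma exists_K {x : V} (hx : x ∈ A3 G ∨ x ∈ V2 G) : ∃ i, x ∈ K G i := by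
  by_cases hxA : x ∈ A3 G
  · exact ⟨x, by rw [K, if_pos hxA]; exact mem_insert_self _ _⟩
  · have hx2 : x ∈ V2 G := hx.resolve_left hxA
    by_cases hx3 : x ∈ X3 G
    · obtain ⟨h2, a, ha, hxa⟩ := mem_X3.1 hx3
      refine ⟨a, ?_⟩
      rw [K, if_pos ha, mem_insert]
      right
      exact mem_inter.2 ⟨by rw [SimpleGraph.mem_neighborFinset]; exact hxa.symm, hx2⟩
    · refine ⟨x, ?_⟩
      rw [K, if_neg hxA, if_pos (mem_sdiff.2 ⟨hx2, hx3⟩)]
      exact mem_singleton_self x

lemma K_sub {i x : V} (hx : x ∈ K G i) : x ∈ A3 G ∨ x ∈ V2 G := by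
  unfold K at hx
  split_ifs at hx with h1 h2
  · rw [mem_insert, mem_inter] at hx
    rcases hx with rfl | h
    · exact Or.inl h1
    · exact Or.inr h.2
  · rw [mem_singleton] at hx
    subst hx
    exact Or.inr (mem_sdiff.1 h2).1
  · exact absurd hx (notMem_empty _)

lemma exists_B {N : ℕ} (H : Hyp G N) {e : Sym2 V} (he : e ∈ G.edgeSet) : ∃ i, e ∈ B G i := by
  induction e using Sym2.ind with
  | _ x z =>
    rw [SimpleGraph.mem_edgeSet] at he
    have key : ∀ v, v ∈ s(x, z) → (v ∈ A3 G ∨ v ∈ V2 G) → ∃ i, s(x, z) ∈ B G i := by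
      intro v hv hv2
      obtain ⟨i, hi⟩ := exists_K hv2
      refine ⟨i, ?_⟩
      rw [B, mem_biUnion]
      refine ⟨v, hi, ?_⟩
      rw [SimpleGraph.mem_incidenceFinset]
      exact ⟨by rwa [SimpleGraph.mem_edgeSet], hv⟩
    by_cases hx : x ∈ A3 G ∨ x ∈ V2 G
    · exact key x (Sym2.mem_mk_left _ _) hx
    by_cases hz : z ∈ A3 G ∨ z ∈ V2 G
    · exact key z (Sym2.mem_mk_right _ _) hz
    exfalso
    push Not at hx hz
    have hxb : 3 ≤ G.degree x := by
      have h1 := H.hd x
      have h2 : G.degree x ≠ 2 := fun h => hx.2 (mem_V2.2 h)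
      omega
    have hzb : 3 ≤ G.degree z := by
      have h1 := H.hd z
      have h2 : G.degree z ≠ 2 := fun h => hz.2 (mem_V2.2 h)
      omega
    rcases pend_or H he hxb hzb with h | h
    · exact hx.1 (mem_A3.2 ⟨_, h⟩)
    · exact hz.1 (mem_A3.2 ⟨_, h⟩)

lemma exists_U {N : ℕ} (H : Hyp G N) : ∃ u, u ∉ A3 G ∧ u ∉ V2 G := by
  by_cases hA : (A3 G).Nonempty
  · obtain ⟨a, ha⟩ := hA
    obtain ⟨y, hp⟩ := mem_A3.1 ha
    refine ⟨y, fun hy => ?_, fun hy => ?_⟩
    · have h1 := (counting H).2.1 a ha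
      have h2 : y ∈ G.neighborFinset a ∩ A3 G :=
        mem_inter.2 ⟨by rw [SimpleGraph.mem_neighborFinset]; exact hp.1, hy⟩
      rw [h1] at h2
      exact notMem_empty _ h2
    · have h1 := mem_V2.1 hy
      have h2 := hp.2.1
      omega
  · rw [not_nonempty_iff_eq_empty] at hA
    by_contra hcon
    push Not at hcon
    have hV2 : V2 G = univ := by
      ext x
      simp only [mem_univ, iff_true]
      exact hcon x (by rw [hA]; exact notMem_empty _)
    have hVb : Vb G = ∅ := by
      have := disj (G := G)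
      rw [hV2] at this
      exact eq_empty_of_forall_notMem (fun x hx => disjoint_left.1 this (mem_univ x) hx)
    have h1 := sum_Vb H
    rw [hVb, sum_empty] at h1
    have h2 := H.h2
    rw [show univ.filter (fun v => G.degree v = 2) = V2 G from rfl, hV2] at h2
    have : (univ : Finset V).Nonempty := by
      obtain ⟨v⟩ := H.hconn.nonempty
      exact ⟨v, mem_univ v⟩
    have := card_pos.2 this
    omega

theorem hyp_false {N : ℕ} (H : Hyp G N) : False := by
  classical
  obtain ⟨u, huA, hu2⟩ := exists_U H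
  have hlt : (covers G).card < (Fintype.piFinset (fun i => F G i)).card := by
    have himg : (covers G).image (fun S => fun i => S ∩ B G i) ⊂ Fintype.piFinset (fun i => F G i) := by
      rw [ssubset_iff_of_subset]
      · refine ⟨fun i => B G i \ G.incidenceFinset u, ?_, ?_⟩
        · rw [Fintype.mem_piFinset]
          intro i
          rw [F, mem_filter, mem_powerset]
          refine ⟨sdiff_subset, fun x hx => ?_⟩
          have hxu : x ≠ u := by
            rintro rfl
            rcases K_sub hx with h | h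
            · exact huA h
            · exact hu2 h
          obtain ⟨w, hw, hwu⟩ := exists_adj_ne (H.hd x) u
          refine ⟨s(x, w), ?_, Sym2.mem_mk_left _ _⟩
          rw [mem_sdiff]
          constructor
          · rw [B, mem_biUnion]
            refine ⟨x, hx, ?_⟩
            rw [SimpleGraph.mem_incidenceFinset]
            exact ⟨by rwa [SimpleGraph.mem_edgeSet], Sym2.mem_mk_left _ _⟩
          · rw [SimpleGraph.mem_incidenceFinset]
            rintro ⟨-, h⟩
            rw [Sym2.mem_iff] at h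
            rcases h with h | h
            · exact hxu h.symm
            · exact hwu h.symm
        · rw [mem_image]
          rintro ⟨S, hS, hSeq⟩
          rw [covers, mem_filter, mem_powerset] at hS
          obtain ⟨e, he, hue⟩ := hS.2 u
          have heG : e ∈ G.edgeSet := SimpleGraph.mem_edgeFinset.1 (hS.1 he)
          obtain ⟨i, hi⟩ := exists_B H heG
          have h1 : e ∈ S ∩ B G i := mem_inter.2 ⟨he, hi⟩
          have h2 : S ∩ B G i = B G i \ G.incidenceFinset u := congrFun hSeq i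
          rw [h2, mem_sdiff, SimpleGraph.mem_incidenceFinset] at h1
          exact h1.2 ⟨heG, hue⟩
      · intro f hf
        rw [mem_image] at hf
        obtain ⟨S, hS, rfl⟩ := hf
        rw [covers, mem_filter, mem_powerset] at hS
        rw [Fintype.mem_piFinset]
        intro i
        rw [F, mem_filter, mem_powerset]
        refine ⟨inter_subset_right, fun x hx => ?_⟩
        obtain ⟨e, he, hxe⟩ := hS.2 x
        refine ⟨e, mem_inter.2 ⟨he, ?_⟩, hxe⟩
        rw [B, mem_biUnion]
        refine ⟨x, hx, ?_⟩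
        rw [SimpleGraph.mem_incidenceFinset]
        exact ⟨SimpleGraph.mem_edgeFinset.1 (hS.1 he), hxe⟩
    have hinj : Set.InjOn (fun S : Finset (Sym2 V) => fun i => S ∩ B G i) (covers G) := by
      intro S hS S' hS' heq
      rw [mem_coe, covers, mem_filter, mem_powerset] at hS hS'
      have hsub : ∀ S S' : Finset (Sym2 V), S ⊆ G.edgeFinset →
          (fun i => S ∩ B G i) = (fun i => S' ∩ B G i) → S ⊆ S' := by
        intro S S' hS heq e he
        obtain ⟨i, hi⟩ := exists_B H (SimpleGraph.mem_edgeFinset.1 (hS he))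
        have h1 : e ∈ S ∩ B G i := mem_inter.2 ⟨he, hi⟩
        have h2 : S ∩ B G i = S' ∩ B G i := congrFun heq i
        rw [h2] at h1
        exact (mem_inter.1 h1).1
      exact Subset.antisymm (hsub S S' hS.1 heq) (hsub S' S hS'.1 heq.symm)
    rw [← card_image_of_injOn hinj]
    exact card_lt_card himg
  rw [Fintype.card_piFinset] at hlt
  have := prod_card_F H
  rw [H.hcov] at hlt
  omega

end Pool.Agent.Helper57.EC
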