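import Pool.Agent.Helper57.EC.Struct

set_option autoImplicit false

namespace Pool.Agent.Helper57.EC

open Finset

variable {V : Type*} [Fintype V] [DecidableEq V] {G : SimpleGraph V} [DecidableRel G.Adj]

omit [DecidableEq V] [DecidableRel G.Adj] [Fintype V] in
lemma mem_edge_of_vertex {e : Sym2 V} (he : e ∈ G.edgeSet) {x : V} (hx : x ∈ e) :
    ∃ w, G.Adj x w ∧ e = s(x, w) := by
  obtain ⟨w, rfl⟩ := hx
  exact ⟨w, by rwa [SimpleGraph.mem_edgeSet] at he, rfl⟩

/-- The counting target for the house graph. -/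
def houseSet : Finset (Bool × Bool × Bool × Bool × Bool × Bool) :=
  univ.filter (fun x => (x.1 || x.2.1 || x.2.2.1) && (x.1 || x.2.2.2.1 || x.2.2.2.2.1) &&
    (x.2.1 || x.2.2.2.1) && (x.2.2.1 || x.2.2.2.2.2) && (x.2.2.2.2.1 || x.2.2.2.2.2))

lemma card_houseSet : houseSet.card = 26 := by decide

lemma house_core {a y t b c : V} (hall : ∀ x, x = a ∨ x = y ∨ x = t ∨ x = b ∨ x = c)
    (ha : ∀ w, G.Adj a w → w = y ∨ w = t ∨ w = b) (hy : ∀ w, G.Adj y w → w = a ∨ w = t ∨ w = c)
    (ht : ∀ w, G.Adj t w → w = a ∨ w = y) (hb : ∀ w, G.Adj b w → w = a ∨ w = c)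
    (hc : ∀ w, G.Adj c w → w = y ∨ w = b) : (covers G).card ≤ 26 := by
  have hsix : ∀ e ∈ G.edgeSet, e = s(a, y) ∨ e = s(a, t) ∨ e = s(a, b) ∨ e = s(y, t) ∨
      e = s(y, c) ∨ e = s(b, c) := by
    intro e he
    induction e using Sym2.ind with
    | _ x z =>
      rw [SimpleGraph.mem_edgeSet] at he
      rcases hall x with rfl | rfl | rfl | rfl | rfl
      · rcases ha z he with rfl | rfl | rfl <;> simp
      · rcases hy z he with rfl | rfl | rfl <;> simp
      · rcases ht z he with rfl | rfl <;> simp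
      · rcases hb z he with rfl | rfl <;> simp
      · rcases hc z he with rfl | rfl <;> simp
  rw [← card_houseSet]
  apply card_le_card_of_injOn (fun S => (decide (s(a, y) ∈ S), decide (s(a, t) ∈ S),
    decide (s(a, b) ∈ S), decide (s(y, t) ∈ S), decide (s(y, c) ∈ S), decide (s(b, c) ∈ S)))
  · intro S hS
    rw [mem_coe, covers, mem_filter, mem_powerset] at hS
    obtain ⟨hSG, hcov⟩ := hS
    have hSG' : ∀ e ∈ S, e ∈ G.edgeSet := fun e he => SimpleGraph.mem_edgeFinset.1 (hSG he)
    have h1 : s(a, y) ∈ S ∨ s(a, t) ∈ S ∨ s(a, b) ∈ S := by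
      obtain ⟨e, he, hae⟩ := hcov a
      obtain ⟨w, hw, rfl⟩ := mem_edge_of_vertex (hSG' e he) hae
      rcases ha w hw with rfl | rfl | rfl <;> simp [he]
    have h2 : s(a, y) ∈ S ∨ s(y, t) ∈ S ∨ s(y, c) ∈ S := by
      obtain ⟨e, he, hae⟩ := hcov y
      obtain ⟨w, hw, rfl⟩ := mem_edge_of_vertex (hSG' e he) hae
      rcases hy w hw with rfl | rfl | rfl
      · left; rwa [Sym2.eq_swap]
      · simp [he]
      · simp [he]
    have h3 : s(a, t) ∈ S ∨ s(y, t) ∈ S := by
      obtain ⟨e, he, hae⟩ := hcov t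
      obtain ⟨w, hw, rfl⟩ := mem_edge_of_vertex (hSG' e he) hae
      rcases ht w hw with rfl | rfl
      · left; rwa [Sym2.eq_swap]
      · right; rwa [Sym2.eq_swap]
    have h4 : s(a, b) ∈ S ∨ s(b, c) ∈ S := by
      obtain ⟨e, he, hae⟩ := hcov b
      obtain ⟨w, hw, rfl⟩ := mem_edge_of_vertex (hSG' e he) hae
      rcases hb w hw with rfl | rfl
      · left; rwa [Sym2.eq_swap]
      · right; exact he
    have h5 : s(y, c) ∈ S ∨ s(b, c) ∈ S := by
      obtain ⟨e, he, hae⟩ := hcov c
      obtain ⟨w, hw, rfl⟩ := mem_edge_of_vertex (hSG' e he) hae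
      rcases hc w hw with rfl | rfl
      · left; rwa [Sym2.eq_swap]
      · right; rwa [Sym2.eq_swap]
    rw [mem_coe, houseSet, mem_filter]
    refine ⟨mem_univ _, ?_⟩
    simp only [Bool.or_eq_true, Bool.and_eq_true, decide_eq_true_eq]
    tauto
  · intro S hS S' hS' heq
    rw [mem_coe, covers, mem_filter, mem_powerset] at hS hS'
    simp only [Prod.mk.injEq, decide_eq_decide] at heq
    obtain ⟨e1, e2, e3, e4, e5, e6⟩ := heq
    ext e
    by_cases he : e ∈ G.edgeSet
    · rcases hsix e he with rfl | rfl | rfl | rfl | rfl | rfl <;> assumption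
    · exact ⟨fun h => absurd (SimpleGraph.mem_edgeFinset.1 (hS.1 h)) he,
        fun h => absurd (SimpleGraph.mem_edgeFinset.1 (hS'.1 h)) he⟩

lemma sum_V2 {N : ℕ} (H : Hyp G N) : ∑ x ∈ V2 G, G.degree x = 2 * N := by
  rw [sum_congr rfl (fun x hx => mem_V2.1 hx), sum_const, smul_eq_mul]
  have := H.h2
  rw [show V2 G = univ.filter (fun v => G.degree v = 2) from rfl, this]
  ring

lemma sum_Vb {N : ℕ} (H : Hyp G N) : ∑ x ∈ Vb G, G.degree x = 2 * N := by
  have h4 : ∑ x ∈ V2 G, G.degree x + ∑ x ∈ Vb G, G.degree x = 4 * N := by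
    rw [← sum_union disj, V2_union_Vb H.hd, G.sum_degrees_eq_twice_card_edges, H.hm]
    ring
  have := sum_V2 H
  omega

lemma house_false {N : ℕ} (H : Hyp G N) {a y : V} (hay : G.Adj a y) (ha : G.degree a = 3)
    (hy : G.degree y = 3) (hoth : ∀ x, x ≠ a → x ≠ y → G.degree x = 2) : False := by
  have hne : a ≠ y := hay.ne
  have hVb : Vb G = {a, y} := by
    ext x
    rw [mem_Vb, mem_insert, mem_singleton]
    constructor
    · intro h
      by_contra hcon
      push Not at hcon
      have := hoth x hcon.1 hcon.2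
      omega
    · rintro (rfl | rfl) <;> omega
  have hmemV2 : ∀ x, x ∈ V2 G ↔ x ≠ a ∧ x ≠ y := by
    intro x
    rw [mem_V2]
    constructor
    · intro h
      constructor <;> · rintro rfl; omega
    · exact fun h => hoth x h.1 h.2
  have hN : N = 3 := by
    have h1 := sum_Vb H
    rw [hVb, sum_pair hne, ha, hy] at h1
    omega
  have hcardV2 : (V2 G).card = 3 := by
    have := H.h2
    rw [hN] at this
    exact this
  -- the number of edges between vertices of degree two is one
  have hbb : eN G (Vb G) (Vb G) = 2 := by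
    unfold eN
    rw [hVb, sum_pair hne]
    have h1 : G.neighborFinset a ∩ {a, y} = {y} := by
      ext x
      simp only [mem_inter, SimpleGraph.mem_neighborFinset, mem_insert, mem_singleton]
      constructor
      · rintro ⟨h, rfl | rfl⟩
        · exact absurd h (G.loopless.irrefl _)
        · rfl
      · rintro rfl
        exact ⟨hay, Or.inr rfl⟩
    have h2 : G.neighborFinset y ∩ {a, y} = {a} := by
      ext x
      simp only [mem_inter, SimpleGraph.mem_neighborFinset, mem_insert, mem_singleton]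
      constructor
      · rintro ⟨h, rfl | rfl⟩
        · rfl
        · exact absurd h (G.loopless.irrefl _)
      · rintro rfl
        exact ⟨hay.symm, Or.inl rfl⟩
    rw [h1, h2, card_singleton, card_singleton]
  have h22 : eN G (V2 G) (V2 G) = 2 := by rw [count_eq H, hbb]
  unfold eN at h22
  obtain ⟨b, hb, hbne⟩ : ∃ b ∈ V2 G, (G.neighborFinset b ∩ V2 G).card ≠ 0 := by
    by_contra hcon
    push Not at hcon
    rw [sum_eq_zero hcon] at h22
    omega
  obtain ⟨c, hc⟩ := card_pos.1 (Nat.pos_of_ne_zero hbne)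
  rw [mem_inter, SimpleGraph.mem_neighborFinset] at hc
  obtain ⟨hbc, hcV⟩ := hc
  have hcne : (G.neighborFinset c ∩ V2 G).card ≠ 0 := by
    apply Nat.pos_iff_ne_zero.1
    apply card_pos.2
    exact ⟨b, mem_inter.2 ⟨by rw [SimpleGraph.mem_neighborFinset]; exact hbc.symm, hb⟩⟩
  have hbcne : b ≠ c := hbc.ne
  have hsub : ({b, c} : Finset V) ⊆ V2 G := by
    intro x hx
    rw [mem_insert, mem_singleton] at hx
    rcases hx with rfl | rfl <;> assumption
  have hsplit : ∑ x ∈ V2 G \ {b, c}, (G.neighborFinset x ∩ V2 G).card +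
      ∑ x ∈ ({b, c} : Finset V), (G.neighborFinset x ∩ V2 G).card = 2 := by
    rw [sum_sdiff hsub, h22]
  rw [sum_pair hbcne] at hsplit
  have hb1 : (G.neighborFinset b ∩ V2 G).card = 1 := by omega
  have hc1 : (G.neighborFinset c ∩ V2 G).card = 1 := by omega
  have hrest : ∑ x ∈ V2 G \ {b, c}, (G.neighborFinset x ∩ V2 G).card = 0 := by omega
  rw [sum_eq_zero_iff] at hrest
  have hcard1 : (V2 G \ {b, c}).card = 1 := by
    rw [card_sdiff_of_subset hsub, hcardV2, card_pair hbcne]
  obtain ⟨t, ht⟩ := card_eq_one.1 hcard1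
  have htm : t ∈ V2 G \ {b, c} := by rw [ht]; exact mem_singleton_self t
  have ht0 := hrest t htm
  rw [mem_sdiff, mem_insert, mem_singleton] at htm
  push Not at htm
  obtain ⟨htV, htb, htc⟩ := htm
  have hall : ∀ x, x = a ∨ x = y ∨ x = t ∨ x = b ∨ x = c := by
    intro x
    by_cases hxa : x = a
    · exact Or.inl hxa
    by_cases hxy : x = y
    · exact Or.inr (Or.inl hxy)
    have hx : x ∈ V2 G := (hmemV2 x).2 ⟨hxa, hxy⟩
    by_cases hxb : x = b
    · simp [hxb]
    by_cases hxc : x = c
    · simp [hxc]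
    have : x ∈ V2 G \ {b, c} := by
      rw [mem_sdiff, mem_insert, mem_singleton]
      exact ⟨hx, by push Not; exact ⟨hxb, hxc⟩⟩
    rw [ht, mem_singleton] at this
    simp [this]
  -- neighbours of `t`
  have ht2 : ∀ w, G.Adj t w → w = a ∨ w = y := by
    intro w hw
    by_contra hcon
    push Not at hcon
    have : w ∈ G.neighborFinset t ∩ V2 G :=
      mem_inter.2 ⟨by rwa [SimpleGraph.mem_neighborFinset], (hmemV2 w).2 hcon⟩
    rw [card_eq_zero] at ht0
    rw [ht0] at this
    exact notMem_empty _ this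
  have htN : G.neighborFinset t = {a, y} := by
    apply eq_of_subset_of_card_le
    · intro w hw
      rw [SimpleGraph.mem_neighborFinset] at hw
      rw [mem_insert, mem_singleton]
      exact ht2 w hw
    · rw [card_pair hne, SimpleGraph.card_neighborFinset_eq_degree, mem_V2.1 htV]
  have hta : G.Adj t a := by
    rw [← SimpleGraph.mem_neighborFinset, htN]; simp
  have hty : G.Adj t y := by
    rw [← SimpleGraph.mem_neighborFinset, htN]; simp
  -- other neighbours of `b` and `c`
  have hother : ∀ p q : V, p ∈ V2 G → q ∈ V2 G → G.Adj p q →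
      (G.neighborFinset p ∩ V2 G).card = 1 →
      ∃ r, (r = a ∨ r = y) ∧ G.Adj p r ∧ ∀ w, G.Adj p w → w = r ∨ w = q := by
    intro p q hp hq hpq h1
    obtain ⟨r, hr, hrq⟩ := exists_adj_ne (H.hd p) q
    have hr' : r = a ∨ r = y := by
      by_contra hcon
      push Not at hcon
      have hrV := (hmemV2 r).2 hcon
      have : ({q, r} : Finset V) ⊆ G.neighborFinset p ∩ V2 G := by
        intro z hz
        rw [mem_insert, mem_singleton] at hz
        rw [mem_inter, SimpleGraph.mem_neighborFinset]
        rcases hz with rfl | rfl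
        · exact ⟨hpq, hq⟩
        · exact ⟨hr, hrV⟩
      have := card_le_card this
      rw [card_pair hrq.symm] at this
      omega
    refine ⟨r, hr', hr, fun w hw => ?_⟩
    have hN : G.neighborFinset p = {r, q} := by
      symm
      apply eq_of_subset_of_card_le
      · intro z hz
        rw [mem_insert, mem_singleton] at hz
        rw [SimpleGraph.mem_neighborFinset]
        rcases hz with rfl | rfl
        · exact hr
        · exact hpq
      · rw [card_pair hrq, SimpleGraph.card_neighborFinset_eq_degree, mem_V2.1 hp]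
    rw [← SimpleGraph.mem_neighborFinset, hN, mem_insert, mem_singleton] at hw
    exact hw
  obtain ⟨r1, hr1, hbr1, hbN⟩ := hother b c hb hcV hbc hb1
  obtain ⟨r2, hr2, hcr2, hcN⟩ := hother c b hcV hb hbc.symm hc1
  have hba := (hmemV2 b).1 hb
  have hca := (hmemV2 c).1 hcV
  have hta' := (hmemV2 t).1 htV
  -- neighbourhoods of size three
  have h3 : ∀ p q r s : V, G.degree p = 3 → q ≠ r → q ≠ s → r ≠ s → G.Adj p q → G.Adj p r →
      G.Adj p s → ∀ w, G.Adj p w → w = q ∨ w = r ∨ w = s := by
    intro p q r s hp hqr hqs hrs h1 h2 h3 w hw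
    have hN : G.neighborFinset p = {q, r, s} := by
      symm
      apply eq_of_subset_of_card_le
      · intro z hz
        simp only [mem_insert, mem_singleton] at hz
        rw [SimpleGraph.mem_neighborFinset]
        rcases hz with rfl | rfl | rfl <;> assumption
      · rw [card_eq_three.2 ⟨q, r, s, hqr, hqs, hrs, rfl⟩,
          SimpleGraph.card_neighborFinset_eq_degree, hp]
    rw [← SimpleGraph.mem_neighborFinset, hN] at hw
    simpa using hw
  have hfin : (covers G).card ≤ 26 := by
    rcases hr1 with rfl | rfl <;> rcases hr2 with rfl | rfl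
    · exfalso
      rcases h3 _ y t b ha hta'.2.symm hba.2.symm htb hay hta.symm hbr1.symm c hcr2.symm
        with h | h | h
      · exact hca.2 h
      · exact htc h.symm
      · exact hbcne h.symm
    · -- b ~ a, c ~ y
      exact house_core hall
        (h3 _ _ _ _ ha hta'.2.symm hba.2.symm htb hay hta.symm hbr1.symm)
        (h3 _ _ _ _ hy hta'.1.symm hca.1.symm htc hay.symm hty.symm hcr2.symm)
        ht2 hbN hcN
    · -- b ~ y, c ~ a
      refine house_core (a := r2) (y := r1) (t := t) (b := c) (c := b) ?_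
        (h3 _ _ _ _ ha hta'.2.symm hca.2.symm htc hay hta.symm hcr2.symm)
        (h3 _ _ _ _ hy hta'.1.symm hba.1.symm htb hay.symm hty.symm hbr1.symm)
        ht2 hcN hbN
      intro x
      rcases hall x with h | h | h | h | h <;> simp [h]
    · exfalso
      rcases h3 _ a t b hy hta'.1.symm hba.1.symm htb hay.symm hty.symm hbr1.symm c hcr2.symm
        with h | h | h
      · exact hca.1 h
      · exact htc h.symm
      · exact hbcne h.symm
  rw [H.hcov, hN] at hfin
  norm_num at hfin

end Pool.Agent.Helper57.EC
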