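import Pool.Agent.Helper57.EC.Final

set_option autoImplicit false

namespace Pool.Agent.Helper57.EC

open Finset

variable {V : Type*} [Fintype V] [DecidableEq V] {G : SimpleGraph V} [DecidableRel G.Adj]

omit [DecidableEq V] in
lemma card_vert_le (hd : ∀ v, 2 ≤ G.degree v) : Fintype.card V ≤ G.edgeFinset.card := by
  have h1 := G.sum_degrees_eq_twice_card_edges
  have h2 : ∑ _v : V, 2 ≤ ∑ v : V, G.degree v := sum_le_sum (fun v _ => hd v)
  rw [sum_const, smul_eq_mul, card_univ] at h2
  omega

omit [DecidableEq V] in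
lemma three_le_card [Nonempty V] (hd : ∀ v, 2 ≤ G.degree v) : 3 ≤ Fintype.card V := by
  obtain ⟨v⟩ := ‹Nonempty V›
  have h1 := hd v
  have h2 := G.degree_lt_card_verts v
  omega

lemma iso_of_small [Nonempty V] (hd : ∀ v, 2 ≤ G.degree v) (hm : G.edgeFinset.card ≤ 3) :
    Nonempty (G ≃g (⊤ : SimpleGraph (Fin 3))) := by
  have h1 := card_vert_le hd
  have h2 := three_le_card hd
  have h3 : Fintype.card V = 3 := by omega
  have htop : ∀ v w : V, v ≠ w → G.Adj v w := by
    intro v w hvw
    have hN : G.neighborFinset v = univ.erase v := by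
      apply eq_of_subset_of_card_le
      · intro x hx
        rw [SimpleGraph.mem_neighborFinset] at hx
        exact mem_erase.2 ⟨hx.ne', mem_univ x⟩
      · rw [card_erase_of_mem (mem_univ v), card_univ, h3,
          SimpleGraph.card_neighborFinset_eq_degree]
        exact hd v
    rw [← SimpleGraph.mem_neighborFinset, hN]
    exact mem_erase.2 ⟨hvw.symm, mem_univ w⟩
  let e : V ≃ Fin 3 := Fintype.equivFinOfCardEq h3
  refine ⟨⟨e, ?_⟩⟩
  intro a b
  rw [SimpleGraph.top_adj]
  constructor
  · intro h
    exact htop a b (fun hab => h (by rw [hab]))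
  · intro h hab
    exact h.ne (e.injective hab)

/-- The combinatorial part of the theorem. -/
theorem main_aux (hconn : G.Connected) (hd : ∀ v, 2 ≤ G.degree v)
    (hK : IsEmpty (G ≃g (⊤ : SimpleGraph (Fin 3))))
    (h : ∃ r N q : ℕ, r + N = G.edgeFinset.card ∧ N * q = G.edgeFinset.card ∧ 1 ≤ r ∧ 1 ≤ N ∧
      (∀ S ∈ covers G, r ≤ S.card) ∧ (covers G).card = (1+q)^N ∧
      N.choose 2 * q^2 + (Finset.univ.filter (fun v => G.degree v = 2)).card =
        (G.edgeFinset.card).choose 2) : False := by
  obtain ⟨r, N, q, h1, h2, h3, h4, h5, h6, h7⟩ := h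
  have : Nonempty V := hconn.nonempty
  have hb := bound_connected hd hconn h5
  have hm3 : 3 ≤ G.edgeFinset.card := (three_le_card hd).trans (card_vert_le hd)
  rcases Nat.lt_or_ge q 3 with hq | hq
  · interval_cases q
    · omega
    · omega
    · have hr : r = N := by omega
      subst hr
      refine hyp_false (G := G) (N := r) ⟨hd, hconn, by omega, h5, ?_, h6⟩
      have e1 : (G.edgeFinset.card).choose 2 = r.choose 2 * 4 + r := by
        rw [← h2]
        have : (((r * 2).choose 2 : ℕ) : ℚ) = ((r.choose 2 * 4 + r : ℕ) : ℚ) := by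
          rw [Nat.cast_choose_two]
          push_cast
          rw [Nat.cast_choose_two]
          ring
        exact_mod_cast this
      omega
  · have h8 : G.edgeFinset.card ≤ 3 := by
      have : N * 3 ≤ N * q := Nat.mul_le_mul_left _ hq
      omega
    exact hK.elim (iso_of_small hd h8).some

end Pool.Agent.Helper57.EC
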