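import Pool.Agent.Helper57.EC.Colour

set_option autoImplicit false

namespace Pool.Agent.Helper57.EC

open Finset

variable {V : Type*} [Fintype V] [DecidableEq V] {G : SimpleGraph V} [DecidableRel G.Adj]

/-- The hypotheses reached when the edge cover polynomial is `x ^ N (x + 2) ^ N`. -/
structure Hyp (G : SimpleGraph V) [DecidableRel G.Adj] (N : ℕ) : Prop where
  hd : ∀ v, 2 ≤ G.degree v
  hconn : G.Connected
  hm : G.edgeFinset.card = 2 * N
  hr : ∀ S ∈ covers G, N ≤ S.card
  h2 : (univ.filter (fun v => G.degree v = 2)).card = N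
  hcov : (covers G).card = 3 ^ N

/-- `a` has degree three, `y` is a neighbour of degree at least three, and the component of `a`
after deleting the edge `ay` has all degrees two. -/
def Pend (G : SimpleGraph V) [DecidableRel G.Adj] (a y : V) : Prop :=
  G.Adj a y ∧ 3 ≤ G.degree y ∧ G.degree a = 3 ∧
    (∀ x, (G.deleteEdges {s(a, y)}).Reachable a x → x ≠ a → x ≠ y → G.degree x = 2) ∧
    ((G.deleteEdges {s(a, y)}).Reachable a y → G.degree y = 3)

lemma pend_or {N : ℕ} (H : Hyp G N) {u w : V} (huw : G.Adj u w) (hu : 3 ≤ G.degree u)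
    (hw : 3 ≤ G.degree w) : Pend G u w ∨ Pend G w u := by
  classical
  set G' := G.deleteEdges {s(u, w)} with hG'
  have hadj : ∀ x y, G'.Adj x y ↔ G.Adj x y ∧ s(x, y) ≠ s(u, w) := by
    intro x y
    simp [hG', SimpleGraph.deleteEdges_adj]
  have hne : u ≠ w := huw.ne
  have hnb1 : ∀ x, x ≠ u → x ≠ w → G'.neighborFinset x = G.neighborFinset x := by
    intro x hxu hxw
    ext z
    rw [SimpleGraph.mem_neighborFinset, SimpleGraph.mem_neighborFinset, hadj]
    refine ⟨fun h => h.1, fun h => ⟨h, fun he => ?_⟩⟩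
    rw [Sym2.eq_iff] at he
    rcases he with ⟨h1, -⟩ | ⟨h1, -⟩
    · exact hxu h1
    · exact hxw h1
  have hnbu : G'.neighborFinset u = (G.neighborFinset u).erase w := by
    ext z
    rw [SimpleGraph.mem_neighborFinset, mem_erase, SimpleGraph.mem_neighborFinset, hadj]
    refine ⟨fun h => ⟨fun hz => h.2 (by rw [hz]), h.1⟩, fun h => ⟨h.2, fun he => ?_⟩⟩
    rw [Sym2.eq_iff] at he
    rcases he with ⟨-, h1⟩ | ⟨h1, -⟩
    · exact h.1 h1
    · exact hne h1
  have hnbw : G'.neighborFinset w = (G.neighborFinset w).erase u := by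
    ext z
    rw [SimpleGraph.mem_neighborFinset, mem_erase, SimpleGraph.mem_neighborFinset, hadj]
    refine ⟨fun h => ⟨fun hz => h.2 (by rw [hz, Sym2.eq_swap]), h.1⟩,
      fun h => ⟨h.2, fun he => ?_⟩⟩
    rw [Sym2.eq_iff] at he
    rcases he with ⟨h1, -⟩ | ⟨-, h1⟩
    · exact hne h1.symm
    · exact h.1 h1
  have hdeg1 : ∀ x, x ≠ u → x ≠ w → G'.degree x = G.degree x := by
    intro x hxu hxw
    rw [← SimpleGraph.card_neighborFinset_eq_degree, ← SimpleGraph.card_neighborFinset_eq_degree,
      hnb1 x hxu hxw]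
  have hdegu : G'.degree u = G.degree u - 1 := by
    rw [← SimpleGraph.card_neighborFinset_eq_degree, ← SimpleGraph.card_neighborFinset_eq_degree,
      hnbu, card_erase_of_mem (by rwa [SimpleGraph.mem_neighborFinset])]
  have hdegw : G'.degree w = G.degree w - 1 := by
    rw [← SimpleGraph.card_neighborFinset_eq_degree, ← SimpleGraph.card_neighborFinset_eq_degree,
      hnbw, card_erase_of_mem (by rw [SimpleGraph.mem_neighborFinset]; exact huw.symm)]
  have hd' : ∀ x, 2 ≤ G'.degree x := by
    intro x
    by_cases hxu : x = u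
    · rw [hxu, hdegu]; omega
    · by_cases hxw : x = w
      · rw [hxw, hdegw]; omega
      · rw [hdeg1 x hxu hxw]; exact H.hd x
  have hmem : s(u, w) ∈ G.edgeFinset := by
    rwa [SimpleGraph.mem_edgeFinset, SimpleGraph.mem_edgeSet]
  rcases good_or_regular hd' with ⟨c, hc⟩ | ⟨v, hv⟩
  · exfalso
    have h1 := bound_of_good (G := G) hc (F := G.edgeFinset.erase s(u, w))
      (fun x y h => by
        rw [mem_erase, SimpleGraph.mem_edgeFinset, SimpleGraph.mem_edgeSet]
        exact ⟨((hadj x y).1 h).2, ((hadj x y).1 h).1⟩) (erase_subset _ _) H.hr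
    have h2 : 0 < G.edgeFinset.card := card_pos.2 ⟨_, hmem⟩
    rw [card_erase_of_mem hmem, H.hm] at h1
    rw [H.hm] at h2
    omega
  · have hvuw : G'.Reachable v u ∨ G'.Reachable v w := by
      by_contra hcon
      push Not at hcon
      have key : ∀ x y (p : G.Walk x y), G'.Reachable v x → G'.Reachable v y := by
        intro x y p
        induction p with
        | nil => exact id
        | cons h p ih =>
          rename_i x z y
          intro hx
          apply ih
          refine hx.trans (SimpleGraph.Adj.reachable ?_)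
          rw [hadj]
          refine ⟨h, fun he => ?_⟩
          rw [Sym2.eq_iff] at he
          rcases he with ⟨h1, -⟩ | ⟨h1, -⟩
          · exact hcon.1 (h1 ▸ hx)
          · exact hcon.2 (h1 ▸ hx)
      obtain ⟨p⟩ := H.hconn.preconnected v u
      exact hcon.1 (key v u p (SimpleGraph.Reachable.refl _))
    rcases hvuw with h | h
    · left
      have h1 : G.degree u = 3 := by
        have := hv u h
        rw [hdegu] at this
        omega
      refine ⟨huw, hw, h1, ?_, ?_⟩
      · intro x hx hxu hxw
        rw [← hdeg1 x hxu hxw]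
        exact hv x (h.trans hx)
      · intro hx
        have := hv w (h.trans hx)
        rw [hdegw] at this
        omega
    · right
      have hsw : (G.deleteEdges {s(w, u)}) = G' := by rw [hG', Sym2.eq_swap]
      have h1 : G.degree w = 3 := by
        have := hv w h
        rw [hdegw] at this
        omega
      refine ⟨huw.symm, hu, h1, ?_, ?_⟩
      · intro x hx hxu hxw
        rw [hsw] at hx
        rw [← hdeg1 x hxw hxu]
        exact hv x (h.trans hx)
      · intro hx
        rw [hsw] at hx
        have := hv u (h.trans hx)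
        rw [hdegu] at this
        omega

/-! ### Counting edges between sets of vertices -/

/-- The number of pairs `(x, z)` of adjacent vertices with `x ∈ P`, `z ∈ Q`. -/
def eN (G : SimpleGraph V) [DecidableRel G.Adj] (P Q : Finset V) : ℕ :=
  ∑ x ∈ P, (G.neighborFinset x ∩ Q).card

lemma eN_comm (P Q : Finset V) : eN G P Q = eN G Q P := by
  unfold eN
  have h : ∀ (A B : Finset V), ∑ x ∈ A, (G.neighborFinset x ∩ B).card =
      ∑ x ∈ A, ∑ y ∈ B, if G.Adj x y then 1 else 0 := by
    intro A B
    refine sum_congr rfl (fun x _ => ?_)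
    rw [card_eq_sum_ones, ← sum_filter]
    refine sum_congr ?_ (fun _ _ => rfl)
    ext z
    simp [and_comm]
  rw [h, h, sum_comm]
  refine sum_congr rfl (fun x _ => sum_congr rfl (fun y _ => ?_))
  simp only [G.adj_comm]

lemma eN_union (P Q R : Finset V) (h : Disjoint Q R) : eN G P (Q ∪ R) = eN G P Q + eN G P R := by
  unfold eN
  rw [← sum_add_distrib]
  refine sum_congr rfl (fun x _ => ?_)
  rw [inter_union_distrib_left, card_union_of_disjoint]
  exact Disjoint.mono inter_subset_right inter_subset_right h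

lemma eN_union' (P Q R : Finset V) (h : Disjoint P Q) : eN G (P ∪ Q) R = eN G P R + eN G Q R := by
  unfold eN
  rw [sum_union h]

/-- The vertices of degree two. -/
def V2 (G : SimpleGraph V) [DecidableRel G.Adj] : Finset V := univ.filter (fun v => G.degree v = 2)

/-- The vertices of degree at least three. -/
def Vb (G : SimpleGraph V) [DecidableRel G.Adj] : Finset V := univ.filter (fun v => 3 ≤ G.degree v)

omit [DecidableEq V] in
lemma mem_V2 {v : V} : v ∈ V2 G ↔ G.degree v = 2 := by simp [V2]

omit [DecidableEq V] in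
lemma mem_Vb {v : V} : v ∈ Vb G ↔ 3 ≤ G.degree v := by simp [Vb]

omit [DecidableEq V] in
lemma disj : Disjoint (V2 G) (Vb G) := by
  rw [disjoint_left]
  intro v h1 h2
  rw [mem_V2] at h1
  rw [mem_Vb] at h2
  omega

lemma V2_union_Vb (hd : ∀ v, 2 ≤ G.degree v) : V2 G ∪ Vb G = univ := by
  ext v
  have := hd v
  simp only [mem_union, mem_V2, mem_Vb, mem_univ, iff_true]
  omega

/-- `e(V₂, V₂) = e(V_b, V_b)`. -/
lemma count_eq {N : ℕ} (H : Hyp G N) : eN G (V2 G) (V2 G) = eN G (Vb G) (Vb G) := by
  have hsum : ∀ P : Finset V, eN G P (V2 G) + eN G P (Vb G) = ∑ x ∈ P, G.degree x := by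
    intro P
    rw [← eN_union _ _ _ disj, V2_union_Vb H.hd]
    unfold eN
    refine sum_congr rfl (fun x _ => ?_)
    rw [inter_univ, SimpleGraph.card_neighborFinset_eq_degree]
  have h1 := hsum (V2 G)
  have h2 := hsum (Vb G)
  have h3 : ∑ x ∈ V2 G, G.degree x = 2 * N := by
    rw [sum_congr rfl (fun x hx => mem_V2.1 hx), sum_const, smul_eq_mul]
    have := H.h2
    rw [show V2 G = univ.filter (fun v => G.degree v = 2) from rfl, this]
    ring
  have h4 : ∑ x ∈ V2 G, G.degree x + ∑ x ∈ Vb G, G.degree x = 4 * N := by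
    rw [← sum_union disj, V2_union_Vb H.hd, G.sum_degrees_eq_twice_card_edges, H.hm]
    ring
  have h5 := eN_comm (G := G) (V2 G) (Vb G)
  omega

end Pool.Agent.Helper57.EC
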